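import Pool.Agent.Helper80.WC.Law0
import Pool.Agent.Helper60.WC.SupE

/-!
# WC-D2: the limit law (the statement of the stub)
-/

open MeasureTheory Real Set Filter Topology

set_option autoImplicit false

namespace Pool.Agent.Helper80.WC

open Pool.Agent.Helper22.AE
open Pool.Agent.Helper22.AC (cntc)
open Pool.Agent.Helper22.WC
open Pool.Agent.Helper93.EX (Mx)

/-- D2: the limit law from the tail -/
theorem law_of_S {H : ℝ → ℝ} (hH : ContDiff ℝ 2 H) (hp : Function.Periodic H (2 * π)) (hr : ∀ θ, 0 < H θ + deriv (deriv H) θ)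
    (htail : ∀ η : ℝ, 0 < η → ∃ (n0 : ℕ) (X₀ : ℝ), 1 ≤ X₀ ∧ ∀ X : ℝ, X₀ ≤ X → ∃ V : ℝ → ℝ, IntegrableOn V (Icc X (2 * X)) ∧
      (∀ R ∈ Icc X (2 * X), ∀ c : ℝ × ℝ, |cntc H c R - area H * R ^ 2 - sqrt R * Mx H (2 ^ n0) R c| ^ 2 ≤ V R) ∧ ∫ R in Icc X (2 * X), V R ≤ η * X ^ 2)
    (hmean : ∀ N : ℕ, ∀ φ : ℝ → ℝ, Continuous φ → (Continuous fun R : ℝ => ⨆ c : ℝ × ℝ, |Mx H N R c|) ∧ (∀ R : ℝ, BddAbove (range fun c : ℝ × ℝ => |Mx H N R c|)) ∧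
      ∃ m : ℝ, ∀ ε : ℝ, 0 < ε → ∃ X₀ : ℝ, 1 ≤ X₀ ∧ ∀ X : ℝ, X₀ ≤ X → |X⁻¹ * (∫ R in Icc X (2 * X), φ (⨆ c : ℝ × ℝ, |Mx H N R c|)) - m| ≤ ε)
    {φ : ℝ → ℝ} (hφ : Continuous φ) (hc : HasCompactSupport φ) : LimS H φ := by
  obtain ⟨h1, h2, h3, _⟩ := Pool.Agent.Helper60.WC.supE_facts hH hp hr
  exact law_of_facts h1 h2 h3 htail hmean hφ hc

end Pool.Agent.Helper80.WC
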