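import Pool.Agent.Helper22.WC.Defs

/-!
# WC-D2 (MP_fb29e9_nt, AlmostEverySmoothOval v4): the limit law of the error at the worst centre from the tail
-/

open MeasureTheory Real Set Filter Topology

set_option autoImplicit false

namespace Pool.Agent.Helper80.WC

open Pool.Agent.Helper22.AE
open Pool.Agent.Helper22.AC (cntc)
open Pool.Agent.Helper22.WC
open Pool.Agent.Helper92.LW (BM mean3 mean_diff mean_const lim_of_approx)
open Pool.Agent.Helper93.EX (Mx)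

/-- the pointwise comparison of the two suprema -/
theorem sup_close {H : ℝ → ℝ} (hb : ∀ R : ℝ, BddAbove (range fun c : ℝ × ℝ => |cntc H c R - area H * R ^ 2|))
    {N : ℕ} {R v : ℝ} (hR : 0 < R) (hM : BddAbove (range fun c : ℝ × ℝ => |Mx H N R c|))
    (h : ∀ c : ℝ × ℝ, |cntc H c R - area H * R ^ 2 - sqrt R * Mx H N R c| ^ 2 ≤ v) :
    |SupE H R / sqrt R - (⨆ c : ℝ × ℝ, |Mx H N R c|)| ^ 2 ≤ v / R := by
  have hs : 0 < sqrt R := Real.sqrt_pos.2 hR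
  have hv : 0 ≤ v := (by positivity : (0 : ℝ) ≤ |cntc H 0 R - area H * R ^ 2 - sqrt R * Mx H N R 0| ^ 2).trans (h 0)
  have h' : ∀ c : ℝ × ℝ, |cntc H c R - area H * R ^ 2 - sqrt R * Mx H N R c| ≤ sqrt v := fun c => by
    refine Real.le_sqrt_of_sq_le ?_
    exact h c
  set W : ℝ := ⨆ c : ℝ × ℝ, |Mx H N R c| with hW
  have h1 : SupE H R ≤ sqrt v + sqrt R * W := by
    refine ciSup_le fun c => ?_
    have e : cntc H c R - area H * R ^ 2 = (cntc H c R - area H * R ^ 2 - sqrt R * Mx H N R c) + sqrt R * Mx H N R c := by ring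
    rw [e]
    refine (abs_add_le _ _).trans (add_le_add (h' c) ?_)
    rw [abs_mul, abs_of_pos hs]
    exact mul_le_mul_of_nonneg_left (le_ciSup hM c) hs.le
  have h2 : W ≤ (sqrt v + SupE H R) / sqrt R := by
    refine ciSup_le fun c => ?_
    rw [le_div_iff₀ hs]
    have e : |Mx H N R c| * sqrt R = |(cntc H c R - area H * R ^ 2) - (cntc H c R - area H * R ^ 2 - sqrt R * Mx H N R c)| := by
      rw [sub_sub_cancel, abs_mul, abs_of_pos hs, mul_comm]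
    rw [e, add_comm]
    exact (abs_sub _ _).trans (add_le_add (le_ciSup (hb R) c) (h' c))
  rw [le_div_iff₀ hs] at h2
  have h3 : |SupE H R / sqrt R - W| ≤ sqrt v / sqrt R := by
    have e : SupE H R / sqrt R - W = (SupE H R - sqrt R * W) / sqrt R := by
      field_simp
    rw [e, abs_div, abs_of_pos hs]
    refine div_le_div_of_nonneg_right ?_ hs.le
    rw [abs_le]
    constructor <;> linarith
  calc |SupE H R / sqrt R - W| ^ 2 ≤ (sqrt v / sqrt R) ^ 2 := pow_le_pow_left₀ (abs_nonneg _) h3 2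
    _ = v / R := by rw [div_pow, Real.sq_sqrt hv, Real.sq_sqrt hR.le]

/-- the limit law from the tail, given the basic facts on the largest error -/
theorem law_of_facts {H : ℝ → ℝ}
    (hb : ∀ R : ℝ, BddAbove (range fun c : ℝ × ℝ => |cntc H c R - area H * R ^ 2|))
    (hloc : ∀ Y : ℝ, ∃ C : ℝ, ∀ R ∈ Icc 1 Y, 0 ≤ SupE H R ∧ SupE H R ≤ C) (hmeas : Measurable (SupE H))
    (htail : ∀ η : ℝ, 0 < η → ∃ (n0 : ℕ) (X₀ : ℝ), 1 ≤ X₀ ∧ ∀ X : ℝ, X₀ ≤ X → ∃ V : ℝ → ℝ, IntegrableOn V (Icc X (2 * X)) ∧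
      (∀ R ∈ Icc X (2 * X), ∀ c : ℝ × ℝ, |cntc H c R - area H * R ^ 2 - sqrt R * Mx H (2 ^ n0) R c| ^ 2 ≤ V R) ∧ ∫ R in Icc X (2 * X), V R ≤ η * X ^ 2)
    (hmean : ∀ N : ℕ, ∀ φ : ℝ → ℝ, Continuous φ → (Continuous fun R : ℝ => ⨆ c : ℝ × ℝ, |Mx H N R c|) ∧ (∀ R : ℝ, BddAbove (range fun c : ℝ × ℝ => |Mx H N R c|)) ∧
      ∃ m : ℝ, ∀ ε : ℝ, 0 < ε → ∃ X₀ : ℝ, 1 ≤ X₀ ∧ ∀ X : ℝ, X₀ ≤ X → |X⁻¹ * (∫ R in Icc X (2 * X), φ (⨆ c : ℝ × ℝ, |Mx H N R c|)) - m| ≤ ε)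
    {φ : ℝ → ℝ} (hφ : Continuous φ) (hc : HasCompactSupport φ) : LimS H φ := by
  obtain ⟨B, hB⟩ := hc.exists_bound_of_continuous hφ
  have hB0 : 0 ≤ B := (norm_nonneg _).trans (hB 0)
  have hu := hc.uniformContinuous_of_continuous hφ
  suffices hsuff : ∃ m : ℝ, ∀ ε : ℝ, 0 < ε → ∃ X₀ : ℝ, 1 ≤ X₀ ∧ ∀ X : ℝ, X₀ ≤ X → ∀ _c : ℝ × ℝ,
      |X⁻¹ * (∫ R in Icc X (2 * X), φ (SupE H R / sqrt R)) - m| ≤ ε by
    obtain ⟨m, hm⟩ := hsuff
    refine ⟨m, fun ε hε => ?_⟩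
    obtain ⟨X₀, hX₀, h⟩ := hm ε hε
    exact ⟨X₀, hX₀, fun X hX => h X hX 0⟩
  refine lim_of_approx (f := fun X _ => X⁻¹ * (∫ R in Icc X (2 * X), φ (SupE H R / sqrt R))) fun ε hε => ?_
  rw [Metric.uniformContinuous_iff] at hu
  obtain ⟨δ, hδ, hu⟩ := hu (ε / 3) (by positivity)
  set η : ℝ := ε * δ ^ 2 / (3 * (2 * B + 1)) with hη
  have hη0 : 0 < η := by positivity
  obtain ⟨n0, X₁, hX₁, h1⟩ := htail η hη0
  obtain ⟨hWc, hWb, m, hm⟩ := hmean (2 ^ n0) φ hφ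
  obtain ⟨X₂, hX₂, h2⟩ := hm (ε / 3) (by positivity)
  refine ⟨m, max X₁ X₂, hX₁.trans (le_max_left _ _), fun X hX _c => ?_⟩
  have hXa : X₁ ≤ X := (le_max_left _ _).trans hX
  have hXb : X₂ ≤ X := (le_max_right _ _).trans hX
  have hX1 : 1 ≤ X := hX₁.trans hXa
  have hX0 : 0 < X := by linarith
  obtain ⟨V, hVi, hV, hVb⟩ := h1 X hXa
  have bu : BM X (fun R => SupE H R / sqrt R) := by
    have q1 : BM X (fun R => SupE H R) := by
      obtain ⟨C, hC⟩ := hloc (2 * X)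
      refine ⟨hmeas.aemeasurable, C, fun R hR => ?_⟩
      have := hC R ⟨hX1.trans hR.1, hR.2⟩
      rw [abs_of_nonneg this.1]
      exact this.2
    have q2 : BM X (fun R => (sqrt R)⁻¹) := by
      refine BM.cont (ContinuousOn.inv₀ Real.continuous_sqrt.continuousOn fun R hR => ?_)
      exact (Real.sqrt_pos.2 (by linarith [hR.1])).ne'
    have q3 := q1.mul q2
    simpa only [div_eq_mul_inv] using q3
  have bv : BM X (fun R => ⨆ c : ℝ × ℝ, |Mx H (2 ^ n0) R c|) := BM.cont hWc.continuousOn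
  have b1 := bu.comp hφ
  have b2 := bv.comp hφ
  have h3 := mean_diff hX1 b1 b2
  have b3 : BM X (fun R => |SupE H R / sqrt R - (⨆ c : ℝ × ℝ, |Mx H (2 ^ n0) R c|)| ^ 2) := (bu.sub bv).abs.pow _
  have m1 : X⁻¹ * ∫ R in Icc X (2 * X), |SupE H R / sqrt R - (⨆ c : ℝ × ℝ, |Mx H (2 ^ n0) R c|)| ^ 2 ≤ η := by
    have q1 : ∫ R in Icc X (2 * X), |SupE H R / sqrt R - (⨆ c : ℝ × ℝ, |Mx H (2 ^ n0) R c|)| ^ 2 ≤
        ∫ R in Icc X (2 * X), X⁻¹ * V R := by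
      refine setIntegral_mono_on b3.int (hVi.const_mul _) measurableSet_Icc fun R hR => ?_
      have hR0 : 0 < R := by linarith [hR.1]
      have hv0 : 0 ≤ V R := (by positivity : (0 : ℝ) ≤ |cntc H 0 R - area H * R ^ 2 - sqrt R * Mx H (2 ^ n0) R 0| ^ 2).trans (hV R hR 0)
      refine (sup_close hb hR0 (hWb R) (hV R hR)).trans ?_
      rw [div_eq_mul_inv, mul_comm]
      exact mul_le_mul_of_nonneg_right (inv_anti₀ hX0 hR.1) hv0
    rw [integral_const_mul] at q1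
    calc X⁻¹ * ∫ R in Icc X (2 * X), |SupE H R / sqrt R - (⨆ c : ℝ × ℝ, |Mx H (2 ^ n0) R c|)| ^ 2
        ≤ X⁻¹ * (X⁻¹ * (η * X ^ 2)) :=
          mul_le_mul_of_nonneg_left (q1.trans (mul_le_mul_of_nonneg_left hVb (by positivity))) (by positivity)
      _ = η := by
          field_simp
  have h4 := mean3 hX1 (b1.sub b2).abs b3 (BM.cont (X := X) (f := fun _ => (0 : ℝ)) continuousOn_const) (a := ε / 3)
    (b := 2 * B / δ ^ 2) (c := 0) (e1 := η) (e2 := 0) (by positivity) le_rfl (fun R _ => by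
      set y := SupE H R / sqrt R with hy
      set z := ⨆ c : ℝ × ℝ, |Mx H (2 ^ n0) R c| with hz
      have a1 := hB y
      have a2 := hB z
      rw [Real.norm_eq_abs] at a1 a2
      have hq : 0 ≤ 2 * B / δ ^ 2 * |y - z| ^ 2 := by positivity
      rcases lt_or_ge (dist y z) δ with hd | hd
      · have := hu hd
        rw [Real.dist_eq] at this
        linarith
      · rw [Real.dist_eq] at hd
        have a3 : |φ y - φ z| ≤ 2 * B := by
          have := abs_sub (φ y) (φ z)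
          linarith
        have a4 : δ ^ 2 ≤ |y - z| ^ 2 := pow_le_pow_left₀ hδ.le hd 2
        have a5 : 2 * B ≤ 2 * B / δ ^ 2 * |y - z| ^ 2 := by
          rw [div_mul_eq_mul_div, le_div_iff₀ (by positivity)]
          exact mul_le_mul_of_nonneg_left a4 (by positivity)
        linarith) m1 (by rw [mean_const hX1])
  have h5 : 2 * B / δ ^ 2 * η ≤ ε / 3 := by
    rw [hη]
    have e : 2 * B / δ ^ 2 * (ε * δ ^ 2 / (3 * (2 * B + 1))) = ε / 3 * (2 * B / (2 * B + 1)) := by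
      field_simp
    rw [e]
    refine mul_le_of_le_one_right (by positivity) ?_
    rw [div_le_one (by positivity)]
    linarith
  have h6 := h2 X hXb
  have e : X⁻¹ * (∫ R in Icc X (2 * X), φ (SupE H R / sqrt R)) - m =
      (X⁻¹ * (∫ R in Icc X (2 * X), φ (SupE H R / sqrt R)) - X⁻¹ * (∫ R in Icc X (2 * X), φ (⨆ c : ℝ × ℝ, |Mx H (2 ^ n0) R c|))) +
      (X⁻¹ * (∫ R in Icc X (2 * X), φ (⨆ c : ℝ × ℝ, |Mx H (2 ^ n0) R c|)) - m) := by ring
  change |X⁻¹ * (∫ R in Icc X (2 * X), φ (SupE H R / sqrt R)) - m| ≤ ε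
  rw [e]
  refine (abs_add_le _ _).trans ?_
  have h7 := h3.trans h4
  linarith

end Pool.Agent.Helper80.WC
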